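import Pool.Agent.Helper68.DS.Goals3

set_option autoImplicit false

/-!
# MP_52cd29_ag Q1, packet SEPDES: the four designs with separate walls

A verified integer elimination: for every window the pivots are computed over `ℤ`.
-/

namespace Pool.Agent.Helper63.DS

open Pool.Agent.Helper68.DS

/-- The integer point `i² + 1`. -/
def muZ (i : ℕ) : ℤ := ((i * i + 1 : ℕ) : ℤ)

/-- Vectors `(α, β, γ, δ)`. -/
structure V4 where
  a : ℤ
  b : ℤ
  c : ℤ
  d : ℤ

/-- `(α y + β) p + (γ y + δ) q`. -/
def V4.dot (x : V4) (p q y : ℤ) : ℤ := (x.a * y + x.b) * p + (x.c * y + x.d) * q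

/-- `e x - f z`. -/
def V4.comb (x z : V4) (e f : ℤ) : V4 :=
  ⟨e * x.a - f * z.a, e * x.b - f * z.b, e * x.c - f * z.c, e * x.d - f * z.d⟩

theorem V4.dot_comb (x z : V4) (e f p q y : ℤ) :
    (x.comb z e f).dot p q y = e * x.dot p q y - f * z.dot p q y := by
  simp only [V4.dot, V4.comb]; ring

/-- The first vector of the list with a nonzero dot product, this product, and the other
vectors. -/
def findPiv (p q y : ℤ) : List V4 → Option (V4 × ℤ × List V4)
  | [] => none
  | x :: t =>
    match x.dot p q y with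
    | Int.ofNat 0 =>
      match findPiv p q y t with
      | none => none
      | some (z, e, r) => some (z, e, x :: r)
    | e => some (x, e, t)

theorem findPiv_some (p q y : ℤ) : ∀ (xs : List V4) (z : V4) (e : ℤ) (r : List V4),
    findPiv p q y xs = some (z, e, r) →
      z ∈ xs ∧ e = z.dot p q y ∧ e ≠ 0 ∧ ∀ x ∈ r, x ∈ xs
  | [], _, _, _, h => by simp [findPiv] at h
  | x :: t, z, e, r, h => by
    unfold findPiv at h
    split at h
    · split at h
      · exact absurd h (by simp)
      · rename_i z' e' r' h'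
        obtain ⟨h1, h2, h3, h4⟩ := findPiv_some p q y t z' e' r' h'
        simp only [Option.some.injEq, Prod.mk.injEq] at h
        obtain ⟨rfl, rfl, rfl⟩ := h
        refine ⟨List.mem_cons_of_mem _ h1, h2, h3, ?_⟩
        intro w hw
        rcases List.mem_cons.1 hw with rfl | hw
        · exact List.mem_cons_self
        · exact List.mem_cons_of_mem _ (h4 w hw)
    · rename_i hne
      simp only [Option.some.injEq, Prod.mk.injEq] at h
      obtain ⟨rfl, rfl, rfl⟩ := h
      refine ⟨List.mem_cons_self, rfl, ?_, fun w hw => List.mem_cons_of_mem _ hw⟩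
      intro h0
      exact hne h0

theorem findPiv_none (p q y : ℤ) : ∀ (xs : List V4), findPiv p q y xs = none →
    ∀ x ∈ xs, x.dot p q y = 0
  | [], _, _, hx => by simp at hx
  | x :: t, h, w, hw => by
    unfold findPiv at h
    split at h
    · rename_i h0
      split at h
      · rename_i h'
        rcases List.mem_cons.1 hw with rfl | hw
        · exact h0
        · exact findPiv_none p q y t h' w hw
      · exact absurd h (by simp)
    · exact absurd h (by simp)

/-- The indicators of the pivots. -/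
def pivs : List V4 → List (ℤ × ℤ × ℤ) → List ℕ
  | _, [] => []
  | [], _ :: _ => []
  | x :: xs, (p, q, y) :: t =>
    match findPiv p q y (x :: xs) with
    | none => 0 :: pivs (x :: xs) t
    | some (z, e, r) => 1 :: pivs (r.map fun w => w.comb z e (w.dot p q y)) t

theorem pivs_sound (P Q Y : ℕ → ℤ) : ∀ (st : List (ℤ × ℤ × ℤ)) (xs : List V4) (i0 : ℕ),
    (∀ j, j < st.length → st[j]? = some (P (i0 + j), Q (i0 + j), Y (i0 + j))) →
    (∀ x ∈ xs, ∀ l, 1 ≤ l → l < i0 → x.dot (P l) (Q l) (Y l) = 0) →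
    ∀ j, (pivs xs st).getD j 0 ≠ 0 → (pivs xs st).getD j 0 = 1 ∧
      ∃ x : V4, (∀ l, 1 ≤ l → l < i0 + j → x.dot (P l) (Q l) (Y l) = 0) ∧
        x.dot (P (i0 + j)) (Q (i0 + j)) (Y (i0 + j)) ≠ 0
  | [], xs, i0, _, _, j, hj => by
    exfalso
    apply hj
    cases xs <;> simp [pivs]
  | _ :: _, [], i0, _, _, j, hj => by
    exfalso
    apply hj
    simp [pivs]
  | (p, q, y) :: t, x :: xs, i0, hst, hxs, j, hj => by
    have h0 := hst 0 (by simp)
    simp only [List.getElem?_cons_zero, Nat.add_zero, Option.some.injEq, Prod.mk.injEq] at h0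
    obtain ⟨hp, hq, hy⟩ := h0
    have hst' : ∀ j, j < t.length →
        t[j]? = some (P (i0 + 1 + j), Q (i0 + 1 + j), Y (i0 + 1 + j)) := by
      intro j hj
      have := hst (j + 1) (by simpa using hj)
      rw [List.getElem?_cons_succ] at this
      rw [this, show i0 + (j + 1) = i0 + 1 + j by omega]
    unfold pivs at hj ⊢
    cases hf : findPiv p q y (x :: xs) with
    | none =>
      rw [hf] at hj
      simp only at hj ⊢
      have hxs' : ∀ w ∈ x :: xs, ∀ l, 1 ≤ l → l < i0 + 1 → w.dot (P l) (Q l) (Y l) = 0 := by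
        intro w hw l hl hl'
        rcases Nat.lt_succ_iff_lt_or_eq.1 hl' with h | rfl
        · exact hxs w hw l hl h
        · rw [← hp, ← hq, ← hy]; exact findPiv_none p q y _ hf w hw
      cases j with
      | zero => simp at hj
      | succ j =>
        rw [List.getD_cons_succ] at hj ⊢
        obtain ⟨h1, w, h2, h3⟩ := pivs_sound P Q Y t (x :: xs) (i0 + 1) hst' hxs' j hj
        refine ⟨h1, w, ?_, ?_⟩
        · intro l hl hl'; exact h2 l hl (by omega)
        · rw [show i0 + (j + 1) = i0 + 1 + j by omega]; exact h3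
    | some res =>
      obtain ⟨z, e, r⟩ := res
      rw [hf] at hj
      simp only at hj ⊢
      obtain ⟨g1, g2, g3, g4⟩ := findPiv_some p q y _ z e r hf
      have hxs' : ∀ w ∈ r.map (fun w => w.comb z e (w.dot p q y)), ∀ l, 1 ≤ l → l < i0 + 1 →
          w.dot (P l) (Q l) (Y l) = 0 := by
        intro w hw l hl hl'
        obtain ⟨w', hw', rfl⟩ := List.mem_map.1 hw
        rw [V4.dot_comb]
        rcases Nat.lt_succ_iff_lt_or_eq.1 hl' with h | rfl
        · rw [hxs w' (g4 w' hw') l hl h, hxs z g1 l hl h]; ring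
        · rw [← hp, ← hq, ← hy, g2]; ring
      cases j with
      | zero =>
        refine ⟨by simp, z, ?_, ?_⟩
        · intro l hl hl'; exact hxs z g1 l hl (by omega)
        · rw [Nat.add_zero, ← hp, ← hq, ← hy, ← g2]; exact g3
      | succ j =>
        rw [List.getD_cons_succ] at hj ⊢
        obtain ⟨h1, w, h2, h3⟩ := pivs_sound P Q Y t _ (i0 + 1) hst' hxs' j hj
        refine ⟨h1, w, ?_, ?_⟩
        · intro l hl hl'; exact h2 l hl (by omega)
        · rw [show i0 + (j + 1) = i0 + 1 + j by omega]; exact h3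

/-- The standard basis. -/
def basis4 : List V4 := [⟨1, 0, 0, 0⟩, ⟨0, 1, 0, 0⟩, ⟨0, 0, 1, 0⟩, ⟨0, 0, 0, 1⟩]

/-- The data of the empty window. -/
def initSt (n : ℕ) : List (ℤ × ℤ × ℤ) := (List.range n).map fun j => (1, 1, muZ (j + 1))

/-- Extension of the window by a position with labels `u`, `v`. -/
def stepSt (u v : ℕ) (st : List (ℤ × ℤ × ℤ)) : List (ℤ × ℤ × ℤ) :=
  st.map fun t => (t.1 * (if u = 0 then t.2.2 else t.2.2 - muZ u),
    t.2.1 * (if v = 0 then 1 else t.2.2 - muZ v), t.2.2)

/-- Sum of the counts. -/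
def addL : List ℕ → List ℕ → List ℕ
  | [], l => l
  | l, [] => l
  | a :: l, b :: l' => (a + b) :: addL l l'

theorem getD_addL : ∀ (l l' : List ℕ) (j : ℕ),
    (addL l l').getD j 0 = l.getD j 0 + l'.getD j 0
  | [], l', j => by simp [addL]
  | a :: l, [], j => by simp [addL]
  | a :: l, b :: l', 0 => by simp [addL]
  | a :: l, b :: l', j + 1 => by
    simp only [addL, List.getD_cons_succ]
    exact getD_addL l l' j

/-- The counts for the windows with a fixed beginning. -/
def row : List (ℕ × ℕ) → List (ℤ × ℤ × ℤ) → List ℕ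
  | [], st => pivs basis4 st
  | (u, v) :: t, st => addL (pivs basis4 st) (row t (stepSt u v st))

/-- The counts for all the windows. -/
def tot (n : ℕ) : List (ℕ × ℕ) → List ℕ
  | [] => row [] (initSt n)
  | w :: t => addL (row (w :: t) (initSt n)) (tot n t)

/-- The inequalities, from the label `i` on. -/
def chk (k s : ℕ) : ℕ → ℕ → List ℕ → Bool
  | 0, _, _ => true
  | _ + 1, _, [] => false
  | m + 1, i, c :: t => Nat.ble ((k - i + 3).choose 2)
      (s * (4 * (k - i + 1) - 2) + (if i = 1 then k + 1 else 0) + c) && chk k s m (i + 1) t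

def zipUV (k : ℕ) : List (ℕ × ℕ) := (sepU k).zip (sepV k)

theorem chk_sound (k s : ℕ) : ∀ (m i : ℕ) (c : List ℕ), chk k s m i c = true → ∀ j < m,
    (k - (i + j) + 3).choose 2 ≤ s * (4 * (k - (i + j) + 1) - 2) +
      (if i + j = 1 then k + 1 else 0) + c.getD j 0
  | 0, _, _, _, j, hj => by omega
  | _ + 1, _, [], h, _, _ => by simp [chk] at h
  | m + 1, i, c :: t, h, j, hj => by
    unfold chk at h
    rw [Bool.and_eq_true] at h
    obtain ⟨h1, h2⟩ := h
    cases j with
    | zero => simpa using Nat.le_of_ble_eq_true h1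
    | succ j =>
      have := chk_sound k s m (i + 1) t h2 j (by omega)
      rw [List.getD_cons_succ, show i + (j + 1) = i + 1 + j by omega]
      exact this

section Windows

variable (U V : ℕ → ℕ)

/-- The product of the entries above the diagonal, over `ℤ`. -/
def PZ (a b l : ℕ) : ℤ := ∏ m ∈ Finset.Ico a b, (if U m = 0 then muZ l else muZ l - muZ (U m))

/-- The product of the entries below the diagonal, over `ℤ`. -/
def QZ (a b l : ℕ) : ℤ := ∏ m ∈ Finset.Ico a b, (if V m = 0 then 1 else muZ l - muZ (V m))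

theorem muZ_cast (l : ℕ) : ((muZ l : ℤ) : ℂ) = muS l := by
  simp only [muZ, muS]
  push_cast
  ring

theorem PZ_cast (a b l : ℕ) :
    ((PZ U a b l : ℤ) : ℂ) = ∏ m ∈ Finset.Ico a b, uval U muS m (muS l) := by
  simp only [PZ, uval, Int.cast_prod]
  refine Finset.prod_congr rfl fun m _ => ?_
  split_ifs
  · exact muZ_cast l
  · rw [Int.cast_sub, muZ_cast, muZ_cast]

theorem QZ_cast (a b l : ℕ) :
    ((QZ V a b l : ℤ) : ℂ) = ∏ m ∈ Finset.Ico a b, vval V muS m (muS l) := by
  simp only [QZ, vval, Int.cast_prod]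
  refine Finset.prod_congr rfl fun m _ => ?_
  split_ifs
  · exact Int.cast_one
  · rw [Int.cast_sub, muZ_cast, muZ_cast]

theorem dot_cast (x : V4) (a b l : ℕ) :
    ((x.dot (PZ U a b l) (QZ V a b l) (muZ l) : ℤ) : ℂ) =
      ((x.a : ℂ) * muS l + (x.b : ℂ)) * (∏ m ∈ Finset.Ico a b, uval U muS m (muS l)) +
        ((x.c : ℂ) * muS l + (x.d : ℂ)) * (∏ m ∈ Finset.Ico a b, vval V muS m (muS l)) := by
  rw [← PZ_cast, ← QZ_cast, ← muZ_cast, V4.dot]
  push_cast
  ring

open Classical in
/-- The indicator of the pivots. -/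
noncomputable def ind (a b i : ℕ) : ℕ := if PIV U V muS a b i then 1 else 0

/-- The list `st` is the data of the window `[a, b]`. -/
def Rep (a b : ℕ) (st : List (ℤ × ℤ × ℤ)) : Prop :=
  ∀ j, j < st.length → st[j]? = some (PZ U a b (1 + j), QZ V a b (1 + j), muZ (1 + j))

theorem rep_init (a n : ℕ) : Rep U V a a (initSt n) := by
  intro j hj
  have hj' : j < n := by simpa [initSt] using hj
  simp [initSt, hj', PZ, QZ, Nat.add_comm]

theorem rep_step (a b : ℕ) (hab : a ≤ b) (st : List (ℤ × ℤ × ℤ)) (h : Rep U V a b st) :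
    Rep U V a (b + 1) (stepSt (U b) (V b) st) := by
  intro j hj
  have hj' : j < st.length := by simpa [stepSt] using hj
  have := h j hj'
  simp only [stepSt, List.getElem?_map, this, Option.map_some, PZ, QZ,
    Finset.prod_Ico_succ_top hab]

theorem pivs_le (a b : ℕ) (st : List (ℤ × ℤ × ℤ)) (h : Rep U V a b st) (j : ℕ) :
    (pivs basis4 st).getD j 0 ≤ ind U V a b (j + 1) := by
  by_cases h0 : (pivs basis4 st).getD j 0 = 0
  · rw [h0]; exact Nat.zero_le _
  · obtain ⟨h1, x, h2, h3⟩ := pivs_sound (PZ U a b) (QZ V a b) muZ st basis4 1 h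
      (fun x _ l hl hl' => by omega) j h0
    rw [h1]
    have hp : PIV U V muS a b (j + 1) := by
      refine ⟨(x.a : ℂ), (x.b : ℂ), (x.c : ℂ), (x.d : ℂ), ?_, ?_⟩
      · intro l hl hl'
        have := h2 l hl (by omega)
        rw [← dot_cast, this, Int.cast_zero]
      · rw [← dot_cast, Nat.add_comm j 1]
        exact_mod_cast h3
    rw [ind, if_pos hp]

theorem row_le (L : List (ℕ × ℕ)) (hL : ∀ m, m < L.length → L[m]? = some (U m, V m)) (a j : ℕ) :
    ∀ (R : List (ℕ × ℕ)) (b : ℕ) (st : List (ℤ × ℤ × ℤ)), L.drop b = R → a ≤ b →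
      b ≤ L.length → Rep U V a b st →
      (row R st).getD j 0 ≤ ∑ b' ∈ Finset.Ico b (L.length + 1), ind U V a b' (j + 1)
  | [], b, st, hR, hab, hb, hst => by
    unfold row
    refine (pivs_le U V a b st hst j).trans ?_
    exact Finset.single_le_sum (f := fun b' => ind U V a b' (j + 1))
      (fun _ _ => Nat.zero_le _) (Finset.mem_Ico.2 ⟨le_refl b, by omega⟩)
  | (u, v) :: t, b, st, hR, hab, hb, hst => by
    have hb' : b < L.length := by
      by_contra hcon
      rw [List.drop_eq_nil_of_le (by omega)] at hR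
      exact absurd hR (by simp)
    have h0 : L[b]? = some (u, v) := by
      have := congrArg (fun l => l[0]?) hR
      simpa using this
    have h1 := hL b hb'
    rw [h0] at h1
    simp only [Option.some.injEq, Prod.mk.injEq] at h1
    obtain ⟨rfl, rfl⟩ := h1
    have h2 : L.drop (b + 1) = t := by
      have := congrArg List.tail hR
      simpa using this
    unfold row
    rw [getD_addL, Finset.sum_eq_sum_Ico_succ_bot (by omega : b < L.length + 1)]
    exact Nat.add_le_add (pivs_le U V a b st hst j)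
      (row_le L hL a j t (b + 1) _ h2 (by omega) (by omega) (rep_step U V a b hab st hst))

theorem tot_le (L : List (ℕ × ℕ)) (hL : ∀ m, m < L.length → L[m]? = some (U m, V m)) (n j : ℕ) :
    ∀ (R : List (ℕ × ℕ)) (a : ℕ), L.drop a = R → a ≤ L.length →
      (tot n R).getD j 0 ≤ ∑ a' ∈ Finset.Ico a (L.length + 1),
        ∑ b' ∈ Finset.Ico a' (L.length + 1), ind U V a' b' (j + 1)
  | [], a, hR, ha => by
    unfold tot
    refine (row_le U V L hL a j [] a (initSt n) hR le_rfl ha (rep_init U V a n)).trans ?_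
    exact Finset.single_le_sum
      (f := fun a' => ∑ b' ∈ Finset.Ico a' (L.length + 1), ind U V a' b' (j + 1))
      (fun _ _ => Nat.zero_le _) (Finset.mem_Ico.2 ⟨le_refl a, by omega⟩)
  | w :: t, a, hR, ha => by
    have hb' : a < L.length := by
      by_contra hcon
      rw [List.drop_eq_nil_of_le (by omega)] at hR
      exact absurd hR (by simp)
    have h2 : L.drop (a + 1) = t := by
      have := congrArg List.tail hR
      simpa using this
    unfold tot
    rw [getD_addL, Finset.sum_eq_sum_Ico_succ_bot (by omega : a < L.length + 1)]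
    exact Nat.add_le_add
      (row_le U V L hL a j (w :: t) a (initSt n) hR le_rfl ha (rep_init U V a n))
      (tot_le L hL n j t (a + 1) h2 (by omega))

theorem cnt_eq (k i : ℕ) : cnt (PIV U V muS) k i =
    ∑ a ∈ Finset.Ico 0 k, ∑ b ∈ Finset.Ico a k, ind U V a b i := by
  classical
  unfold cnt
  rw [Finset.card_filter, Finset.sum_product, Finset.range_eq_Ico]
  refine Finset.sum_congr rfl fun a ha => ?_
  have h1 : Finset.Ico a k = (Finset.Ico 0 k).filter fun b => a ≤ b := by
    ext b
    simp only [Finset.mem_Ico, Finset.mem_filter]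
    omega
  rw [h1, Finset.sum_filter]
  refine Finset.sum_congr rfl fun b _ => ?_
  unfold ind
  by_cases h2 : a ≤ b <;> by_cases h3 : PIV U V muS a b i <;> simp [h2, h3]

end Windows

/-- The inequality for a design given by lists. -/
theorem step_of_chk (U V : ℕ → ℕ) (L : List (ℕ × ℕ)) (k n s : ℕ) (hk : L.length + 1 = k)
    (hL : ∀ m, m < L.length → L[m]? = some (U m, V m)) (h : chk k s n 1 (tot n L) = true) :
    StepIneq k n s (cnt (PIV U V muS) k) := by
  intro i hi1 hin
  obtain ⟨j, rfl⟩ : ∃ j, i = 1 + j := ⟨i - 1, by omega⟩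
  have h1 := chk_sound k s n 1 (tot n L) h j (by omega)
  have h2 := tot_le U V L hL n j L 0 (by simp) (Nat.zero_le _)
  rw [cnt_eq, ← hk, Nat.add_comm 1 j]
  rw [Nat.add_comm 1 j, ← hk] at h1
  omega

theorem chk16 : chk 16 1 13 1 (tot 13 (zipUV 16)) = true := by decide +kernel

theorem chk17 : chk 17 1 14 1 (tot 14 (zipUV 17)) = true := by decide +kernel

theorem chk29 : chk 29 2 12 1 (tot 12 (zipUV 29)) = true := by decide +kernel

theorem chk41 : chk 41 3 12 1 (tot 12 (zipUV 41)) = true := by decide +kernel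

theorem zipUV_spec (k : ℕ) (h : (sepU k).length = (sepV k).length) (m : ℕ)
    (hm : m < (zipUV k).length) :
    (zipUV k)[m]? = some ((sepU k).getD m 0, (sepV k).getD m 0) := by
  have h1 : m < (sepU k).length := by
    simp only [zipUV, List.length_zip] at hm; omega
  have h2 : m < (sepV k).length := by
    simp only [zipUV, List.length_zip] at hm; omega
  simp [zipUV, h1, h2, List.getD_eq_getElem?_getD]

/-- SEPDES. The four designs with separate walls. -/
theorem SEPDES : SEPDES_stmt := by
  intro k n s hk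
  simp only [List.mem_cons, Prod.mk.injEq, List.not_mem_nil, or_false] at hk
  refine ⟨PIV (fun m => (sepU k).getD m 0) (fun m => (sepV k).getD m 0) muS,
    fun a b i _ _ _ _ h => h, ?_⟩
  rcases hk with ⟨rfl, rfl, rfl⟩ | ⟨rfl, rfl, rfl⟩ | ⟨rfl, rfl, rfl⟩ | ⟨rfl, rfl, rfl⟩
  · exact step_of_chk _ _ (zipUV 16) 16 13 1 (by decide) (zipUV_spec 16 (by decide)) chk16
  · exact step_of_chk _ _ (zipUV 17) 17 14 1 (by decide) (zipUV_spec 17 (by decide)) chk17
  · exact step_of_chk _ _ (zipUV 29) 29 12 2 (by decide) (zipUV_spec 29 (by decide)) chk29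
  · exact step_of_chk _ _ (zipUV 41) 41 12 3 (by decide) (zipUV_spec 41 (by decide)) chk41

end Pool.Agent.Helper63.DS
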